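import Pool.Agent.helper26.IM.SpecA

/-! # im: FNS, full tensors are not sums of few slices -/

set_option autoImplicit false

open Finset

namespace Pool.Agent.helper26.IM

open Pool.Agent.RRank Pool.Agent.helper35.MR

theorem FNS_ker {K ι : Type} [Field K] [Fintype ι] {p : ℕ} (a : Fin p → ι → K) :
    ∃ U : Submodule K (ι → K), Fintype.card ι ≤ Module.finrank K U + p ∧
      ∀ u ∈ U, ∀ i, ∑ x, u x * a i x = 0 := by
  classical
  let f : (ι → K) →ₗ[K] (Fin p → K) := LinearMap.pi fun i => ∑ x, a i x • LinearMap.proj x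
  have hf : ∀ u i, f u i = ∑ x, u x * a i x := by
    intro u i
    show (∑ x, a i x • (LinearMap.proj x : (ι → K) →ₗ[K] K)) u = _
    rw [LinearMap.sum_apply]
    exact Finset.sum_congr rfl fun x _ => by
      rw [LinearMap.smul_apply, LinearMap.proj_apply, smul_eq_mul, mul_comm]
  refine ⟨LinearMap.ker f, ?_, fun u hu i => ?_⟩
  · have h1 := LinearMap.finrank_range_add_finrank_ker f
    have h2 : Module.finrank K (LinearMap.range f) ≤ p := by
      have := Submodule.finrank_le (LinearMap.range f)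
      rwa [Module.finrank_fin_fun] at this
    rw [Module.finrank_fintype_fun_eq_card] at h1
    omega
  · rw [← hf, LinearMap.mem_ker.mp hu]
    rfl

theorem FNS : FNS_stmt := by
  intro K _ ι _ M hM r hr hS
  obtain ⟨p, q, s, a, b, c, d, e, f, h1, h2⟩ := hS
  obtain ⟨U, hU1, hU2⟩ := FNS_ker a
  obtain ⟨V, hV1, hV2⟩ := FNS_ker c
  obtain ⟨W, hW1, hW2⟩ := FNS_ker e
  obtain ⟨u, hu, v, hv, w, hw, hne⟩ := hM U V W (by omega)
  apply hne
  unfold ev3
  have e1 : ∀ x y z, M x y z * (u x * v y * w z) =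
      ∑ i, (u x * a i x) * (b i y z * (v y * w z)) +
      ∑ j, (v y * c j y) * (d j x z * (u x * w z)) +
      ∑ k, (w z * e k z) * (f k x y * (u x * v y)) := by
    intro x y z
    rw [h2, add_mul, add_mul, Finset.sum_mul, Finset.sum_mul, Finset.sum_mul]
    congr 1
    · congr 1
      · exact Finset.sum_congr rfl fun i _ => by ring
      · exact Finset.sum_congr rfl fun i _ => by ring
    · exact Finset.sum_congr rfl fun i _ => by ring
  simp only [e1, Finset.sum_add_distrib]
  have t1 : ∑ x, ∑ y, ∑ z, ∑ i, (u x * a i x) * (b i y z * (v y * w z)) = 0 := by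
    have : ∀ x, ∑ y, ∑ z, ∑ i, (u x * a i x) * (b i y z * (v y * w z)) =
        ∑ i, (u x * a i x) * ∑ y, ∑ z, (b i y z * (v y * w z)) := by
      intro x
      simp only [Finset.mul_sum]
      rw [Finset.sum_congr rfl fun y _ => Finset.sum_comm, Finset.sum_comm]
    simp only [this]
    rw [Finset.sum_comm]
    refine Finset.sum_eq_zero fun i _ => ?_
    rw [← Finset.sum_mul, hU2 u hu i, zero_mul]
  have t2 : ∑ x, ∑ y, ∑ z, ∑ j, (v y * c j y) * (d j x z * (u x * w z)) = 0 := by
    rw [Finset.sum_comm]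
    have : ∀ y, ∑ x, ∑ z, ∑ j, (v y * c j y) * (d j x z * (u x * w z)) =
        ∑ j, (v y * c j y) * ∑ x, ∑ z, (d j x z * (u x * w z)) := by
      intro y
      simp only [Finset.mul_sum]
      rw [Finset.sum_congr rfl fun x _ => Finset.sum_comm, Finset.sum_comm]
    simp only [this]
    rw [Finset.sum_comm]
    refine Finset.sum_eq_zero fun j _ => ?_
    rw [← Finset.sum_mul, hV2 v hv j, zero_mul]
  have t3 : ∑ x, ∑ y, ∑ z, ∑ k, (w z * e k z) * (f k x y * (u x * v y)) = 0 := by
    refine Finset.sum_eq_zero fun x _ => Finset.sum_eq_zero fun y _ => ?_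
    rw [Finset.sum_comm]
    refine Finset.sum_eq_zero fun k _ => ?_
    rw [← Finset.sum_mul, hW2 w hw k, zero_mul]
  rw [t1, t2, t3, add_zero, add_zero]

end Pool.Agent.helper26.IM
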