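import Pool.Agent.helper26.IM.SpecA

/-! # im: NFS, specialisation of certificates at a point of a subring -/

set_option autoImplicit false

open Finset

namespace Pool.Agent.helper26.IM

open Pool.Agent.RRank Pool.Agent.helper35.MR

/-- a valuation ring which dominates a localisation -/
theorem NFS_val (L : Type) [Field L] (A : Subring L) (P : Ideal A) [P.IsPrime] :
    ∃ (O : ValuationSubring L) (hA : ∀ a : A, (a : L) ∈ O),
      ∀ a : A, a ∈ P ↔ IsLocalRing.residue O ⟨a, hA a⟩ = 0 := by
  obtain ⟨V, hle, hloc⟩ := (LocalSubring.ofPrime A P).exists_le_valuationSubring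
  refine ⟨V, fun a => hle (LocalSubring.le_ofPrime A P a.2), fun a => ?_⟩
  rw [IsLocalRing.residue_eq_zero_iff, IsLocalRing.mem_maximalIdeal, mem_nonunits_iff]
  have h1 : IsUnit (algebraMap A (LocalSubring.ofPrime A P).toSubring a) ↔ a ∉ P :=
    IsLocalization.AtPrime.isUnit_to_map_iff (LocalSubring.ofPrime A P).toSubring P a
  have h2 : IsUnit (Subring.inclusion hle
      (algebraMap A (LocalSubring.ofPrime A P).toSubring a)) ↔
      IsUnit (algebraMap A (LocalSubring.ofPrime A P).toSubring a) :=
    ⟨fun h => hloc.map_nonunit _ h, fun h => h.map _⟩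
  have h3 := h2.trans h1
  constructor
  · intro ha hu
    exact (h3.mp hu) ha
  · intro hu
    by_contra ha
    exact hu (h3.mpr ha)

theorem NFS (hV : NFV_stmt) (hC : CEX_stmt) (hM : NFM_stmt) (hG : NFG_stmt) : NFS_stmt := by
  intro L K _ _ _ A h ι _ M hNF
  set P : Ideal A := RingHom.ker h with hP
  have hPp : P.IsPrime := RingHom.ker_isPrime h
  obtain ⟨O, hA, hres⟩ := NFS_val L A P
  -- the map to the residue field
  let inc : A →+* O :=
    { toFun := fun a => ⟨a, hA a⟩
      map_one' := rfl
      map_mul' := fun _ _ => rfl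
      map_zero' := rfl
      map_add' := fun _ _ => rfl }
  let ρ : O →+* IsLocalRing.ResidueField O := IsLocalRing.residue O
  have hk1 : ∀ a ∈ P, h a = 0 := fun a ha => ha
  have hk2 : ∀ a ∈ P, (ρ.comp inc) a = 0 := fun a ha => (hres a).mp ha
  let f0 : A ⧸ P →+* K := Ideal.Quotient.lift P h hk1
  let g0 : A ⧸ P →+* IsLocalRing.ResidueField O := Ideal.Quotient.lift P (ρ.comp inc) hk2
  have hf0 : Function.Injective f0 := by
    rw [injective_iff_map_eq_zero]
    intro x
    obtain ⟨a, rfl⟩ := Ideal.Quotient.mk_surjective x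
    intro hx
    rw [Ideal.Quotient.eq_zero_iff_mem]
    exact hx
  have hg0 : Function.Injective g0 := by
    rw [injective_iff_map_eq_zero]
    intro x
    obtain ⟨a, rfl⟩ := Ideal.Quotient.mk_surjective x
    intro hx
    rw [Ideal.Quotient.eq_zero_iff_mem]
    exact (hres a).mpr hx
  let f1 : FractionRing (A ⧸ P) →+* K := IsFractionRing.lift hf0
  let g1 : FractionRing (A ⧸ P) →+* IsLocalRing.ResidueField O := IsFractionRing.lift hg0
  obtain ⟨Ω, _, f', g', hfg⟩ := hC (FractionRing (A ⧸ P)) K (IsLocalRing.ResidueField O) f1 g1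
  have hcomp : ∀ a : A, f' (h a) = g' (ρ (inc a)) := by
    intro a
    have e1 : f1 (algebraMap (A ⧸ P) (FractionRing (A ⧸ P)) (Ideal.Quotient.mk P a)) = h a :=
      IsFractionRing.lift_algebraMap hf0 _
    have e2 : g1 (algebraMap (A ⧸ P) (FractionRing (A ⧸ P)) (Ideal.Quotient.mk P a)) =
        ρ (inc a) := IsFractionRing.lift_algebraMap hg0 _
    rw [← e1, ← e2]
    exact hfg _
  have s1 : NF (fun i j k => ρ (inc (M i j k))) :=
    hV L O (IsLocalRing.ResidueField O) ρ ι (fun i j k => inc (M i j k)) hNF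
  have s2 : NF (fun i j k => g' (ρ (inc (M i j k)))) := hM _ _ g' ι _ s1
  have s3 : NF (fun i j k => f' (h (M i j k))) := by
    have : (fun i j k => f' (h (M i j k))) = fun i j k => g' (ρ (inc (M i j k))) := by
      funext i j k
      exact hcomp _
    rw [this]
    exact s2
  exact hG K Ω f' ι _ s3

end Pool.Agent.helper26.IM
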